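import Mathlib
import Pool.Agent.X203.ToricC
import Pool.Agent.X203.ToricD

/-!
# Toric ideals of bounded powers of edge ideals (Q1, proved)

For every finite simple graph `G` on the vertices `x_1, …, x_n` without isolated vertices, every
vector `c` of positive integers and every field `K`, the toric ideal of the minimal monomial
generating set of `(I(G)^δ)_c` is generated by the symmetric exchange binomials.
-/

namespace Pool.Agent.Results.MP_69eae4_al.SymmetricExchange

open MvPolynomial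

variable {n : ℕ}

/-- The edge ideal `I(G) = (x_i x_j : {x_i, x_j} an edge)`. -/
noncomputable def edgeIdeal (K : Type) [Field K] (G : SimpleGraph (Fin n)) : Ideal (MvPolynomial (Fin n) K) :=
  Ideal.span {f | ∃ i j, G.Adj i j ∧ f = X i * X j}

/-- `I_c`: the ideal generated by the monomials `x^a ∈ I` with `a_i ≤ c_i` for all `i`. -/
noncomputable def bounded {K : Type} [Field K] (I : Ideal (MvPolynomial (Fin n) K)) (c : Fin n → ℕ) :
    Ideal (MvPolynomial (Fin n) K) :=
  Ideal.span {f | ∃ a : Fin n →₀ ℕ, (∀ i, a i ≤ c i) ∧ f = monomial a 1 ∧ f ∈ I}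

/-- The exponents of the minimal monomial generators of a monomial ideal `J`: the exponents of the
monomials of `J` which are minimal for divisibility. -/
def minGens {K : Type} [Field K] (J : Ideal (MvPolynomial (Fin n) K)) : Set (Fin n →₀ ℕ) :=
  {a | monomial a 1 ∈ J ∧ ∀ b : Fin n →₀ ℕ, monomial b 1 ∈ J → b ≤ a → b = a}

/-- The toric ideal of a set `B` of monomials (given by their exponents): the kernel of the
homomorphism `K[z_w : w ∈ B] → K[x_1, …, x_n]` which sends `z_w` to the monomial `x^w`. -/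
noncomputable def toricIdeal (K : Type) [Field K] (B : Set (Fin n →₀ ℕ)) :
    Ideal (MvPolynomial B K) :=
  RingHom.ker (aeval (R := K) fun w : B => (monomial (w : Fin n →₀ ℕ) 1 : MvPolynomial (Fin n) K))

/-- The symmetric exchange binomials `z_u z_v - z_{u'} z_{v'}` of `B`, where for some `ξ`, `ρ`
with `u_ξ > v_ξ` and `u_ρ < v_ρ` one has `x^{u'} = x_ρ x^u / x_ξ` and `x^{v'} = x_ξ x^v / x_ρ`. -/
def symExchange (K : Type) [Field K] (B : Set (Fin n →₀ ℕ)) : Set (MvPolynomial B K) :=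
  {f | ∃ (u v u' v' : B) (ξ ρ : Fin n), (v : Fin n →₀ ℕ) ξ < (u : Fin n →₀ ℕ) ξ ∧
    (u : Fin n →₀ ℕ) ρ < (v : Fin n →₀ ℕ) ρ ∧
    (u' : Fin n →₀ ℕ) + Finsupp.single ξ 1 = (u : Fin n →₀ ℕ) + Finsupp.single ρ 1 ∧
    (v' : Fin n →₀ ℕ) + Finsupp.single ρ 1 = (v : Fin n →₀ ℕ) + Finsupp.single ξ 1 ∧
    f = X u * X v - X u' * X v'}

open Pool.Agent.X203.Toric

/-- degree vectors of multisets of `q` edges -/
def EVec (G : SimpleGraph (Fin n)) (q : ℕ) : Set (Fin n →₀ ℕ) :=
  {w | ∃ M : Multiset (Fin n × Fin n), M.card = q ∧ Eds G M ∧ dg M = w}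

theorem pow_edge (K : Type) [Field K] (G : SimpleGraph (Fin n)) (q : ℕ) :
    edgeIdeal K G ^ q = Ideal.span ((fun s => monomial s (1 : K)) '' EVec G q) := by
  induction q with
  | zero =>
    rw [pow_zero, Ideal.one_eq_top]
    symm
    rw [Ideal.eq_top_iff_one]
    apply Ideal.subset_span
    exact ⟨0, ⟨0, by simp, by intro e he; simp at he, by simp⟩, by simp⟩
  | succ q ih =>
    rw [pow_succ, ih, edgeIdeal, Ideal.span_mul_span']
    congr 1
    ext f
    constructor
    · rintro ⟨_, ⟨w, ⟨M, h1, h2, rfl⟩, rfl⟩, _, ⟨i, j, hij, rfl⟩, rfl⟩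
      refine ⟨dg ((i, j) ::ₘ M), ⟨(i, j) ::ₘ M, by simp [h1], ?_, rfl⟩, ?_⟩
      · intro e he
        rw [Multiset.mem_cons] at he
        rcases he with rfl | he
        · exact hij
        · exact h2 e he
      · simp only [dg_cons, X, monomial_mul, one_mul]
        rw [add_comm (dg M)]
    · rintro ⟨w, ⟨M, h1, h2, rfl⟩, rfl⟩
      obtain ⟨e, he⟩ : ∃ e, e ∈ M := by
        apply Multiset.exists_mem_of_ne_zero
        rintro rfl
        simp at h1
      obtain ⟨M', rfl⟩ := Multiset.exists_cons_of_mem he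
      refine ⟨monomial (dg M') 1, ⟨dg M', ⟨M', by simpa using h1,
        fun e he => h2 e (Multiset.mem_cons_of_mem he), rfl⟩, rfl⟩, X e.1 * X e.2,
        ⟨e.1, e.2, h2 e he, rfl⟩, ?_⟩
      simp only [dg_cons, X, monomial_mul, one_mul]
      rw [add_comm (dg M')]

theorem mono_mem (K : Type) [Field K] (S : Set (Fin n →₀ ℕ)) (a : Fin n →₀ ℕ) :
    (monomial a 1 : MvPolynomial (Fin n) K) ∈ Ideal.span ((fun s => monomial s (1 : K)) '' S) ↔
      ∃ w ∈ S, w ≤ a := by
  classical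
  rw [mem_ideal_span_monomial_image]
  rw [support_monomial, if_neg one_ne_zero]
  simp

theorem bounded_eq (K : Type) [Field K] (G : SimpleGraph (Fin n)) (c : Fin n → ℕ) (q : ℕ) :
    bounded (edgeIdeal K G ^ q) c =
      Ideal.span ((fun s => monomial s (1 : K)) '' {a | (∀ i, a i ≤ c i) ∧ ∃ w ∈ EVec G q, w ≤ a}) := by
  unfold bounded
  congr 1
  ext f
  constructor
  · rintro ⟨a, ha, rfl, hf⟩
    rw [pow_edge, mono_mem] at hf
    exact ⟨a, ⟨ha, hf⟩, rfl⟩
  · rintro ⟨a, ⟨ha, hf⟩, rfl⟩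
    refine ⟨a, ha, rfl, ?_⟩
    rw [pow_edge, mono_mem]
    exact hf

theorem bounded_ne_bot (K : Type) [Field K] (G : SimpleGraph (Fin n)) (c : Fin n → ℕ) (q : ℕ) :
    bounded (edgeIdeal K G ^ q) c ≠ ⊥ ↔ (matchVecs G c q).Nonempty := by
  rw [bounded_eq]
  constructor
  · intro h
    by_contra hcon
    apply h
    rw [Ideal.span_eq_bot]
    rintro f ⟨a, ⟨ha, w, hw, hwa⟩, rfl⟩
    exact (hcon ⟨w, hw, fun x => (hwa x).trans (ha x)⟩).elim
  · rintro ⟨w, hw, hwc⟩ h
    rw [Ideal.span_eq_bot] at h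
    have := h (monomial w 1) ⟨w, ⟨hwc, w, hw, le_rfl⟩, rfl⟩
    rw [monomial_eq_zero] at this
    exact one_ne_zero this

theorem tdeg_dg (M : Multiset (Fin n × Fin n)) : tdeg (dg M) = 2 * M.card := by
  induction M using Multiset.induction with
  | empty => simp [tdeg]
  | cons e M ih =>
    rw [dg_cons, tdeg_add, tdeg_add, ih]
    have : ∀ i : Fin n, tdeg (Finsupp.single i 1) = 1 := by
      intro i
      simp [tdeg, Finsupp.single_apply]
    rw [this, this, Multiset.card_cons]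
    ring

theorem tdeg_mono {a b : Fin n →₀ ℕ} (h : a ≤ b) : tdeg a ≤ tdeg b :=
  Finset.sum_le_sum fun i _ => h i

theorem eq_of_le_tdeg {a b : Fin n →₀ ℕ} (h : a ≤ b) (h2 : tdeg b ≤ tdeg a) : a = b := by
  by_contra hne
  obtain ⟨i, hi⟩ : ∃ i, a i ≠ b i := by
    by_contra hcon
    push Not at hcon
    exact hne (Finsupp.ext hcon)
  have : tdeg a < tdeg b := Finset.sum_lt_sum (fun i _ => h i)
    ⟨i, Finset.mem_univ i, lt_of_le_of_ne (h i) hi⟩
  omega

theorem minGens_eq (K : Type) [Field K] (G : SimpleGraph (Fin n)) (c : Fin n → ℕ) (q : ℕ) :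
    minGens (bounded (edgeIdeal K G ^ q) c) = matchVecs G c q := by
  ext a
  unfold minGens
  rw [Set.mem_ofPred_eq, bounded_eq, mono_mem]
  constructor
  · rintro ⟨⟨a', ⟨ha', w, hw, hwa'⟩, ha'a⟩, hmin⟩
    have hwc : ∀ i, w i ≤ c i := fun i => (hwa' i).trans (ha' i)
    have := hmin w (by rw [mono_mem]; exact ⟨w, ⟨hwc, w, hw, le_rfl⟩, le_rfl⟩)
      (hwa'.trans ha'a)
    rw [← this]
    exact ⟨hw, hwc⟩
  · rintro ⟨⟨M, h1, h2, rfl⟩, h3⟩
    refine ⟨⟨dg M, ⟨h3, dg M, ⟨M, h1, h2, rfl⟩, le_rfl⟩, le_rfl⟩, ?_⟩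
    intro b hb hba
    rw [mono_mem] at hb
    obtain ⟨b', ⟨_, w, ⟨M', g1, g2, rfl⟩, hwb'⟩, hb'b⟩ := hb
    have hwa : dg M' ≤ dg M := (hwb'.trans hb'b).trans hba
    apply eq_of_le_tdeg hba
    rw [tdeg_dg, h1, ← g1, ← tdeg_dg]
    exact tdeg_mono (hwb'.trans hb'b)

/-- For every finite simple graph `G` on `n ≥ 1` vertices without isolated vertices, every vector
`c` of positive integers and every field `K`, there is a largest `δ` with `(I(G)^δ)_c ≠ 0`, and the
toric ideal of the minimal monomial generating set of `(I(G)^δ)_c` is generated by the symmetric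
exchange binomials. -/
theorem result (n : ℕ) (hn : 0 < n) (K : Type) [Field K] (G : SimpleGraph (Fin n))
    (hG : ∀ i, ∃ j, G.Adj i j) (c : Fin n → ℕ) (hc : ∀ i, 0 < c i) :
    ∃ δ : ℕ, IsGreatest {q : ℕ | bounded (edgeIdeal K G ^ q) c ≠ ⊥} δ ∧
      toricIdeal K (minGens (bounded (edgeIdeal K G ^ δ) c)) =
        Ideal.span (symExchange K (minGens (bounded (edgeIdeal K G ^ δ) c))) := by
  have hone : (matchVecs G c 1).Nonempty := by
    obtain ⟨j, hj⟩ := hG ⟨0, hn⟩
    refine ⟨dg {((⟨0, hn⟩ : Fin n), j)}, ⟨_, by simp, ?_, rfl⟩, fun x => ?_⟩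
    · intro e he
      rw [Multiset.mem_singleton] at he
      subst he
      exact hj
    · have : dg ({((⟨0, hn⟩ : Fin n), j)} : Multiset (Fin n × Fin n)) =
          Finsupp.single (⟨0, hn⟩ : Fin n) 1 + Finsupp.single j 1 + dg 0 := dg_cons _ 0
      rw [this]
      have hx := hc x
      have hne := hj.ne
      simp only [dg_zero, add_zero, Finsupp.add_apply, Finsupp.single_apply]
      by_cases h1 : (⟨0, hn⟩ : Fin n) = x
      · have h2 : ¬ j = x := fun h => hne (h1.trans h.symm)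
        simp only [h1, h2, if_true, if_false]; omega
      · by_cases h2 : j = x
        · simp only [h1, h2, if_true, if_false]; omega
        · simp only [h1, h2, if_false]; omega
  have hset : {q : ℕ | bounded (edgeIdeal K G ^ q) c ≠ ⊥} = {q | (matchVecs G c q).Nonempty} := by
    ext q; exact bounded_ne_bot K G c q
  rw [hset]
  have hbdd : BddAbove {q | (matchVecs G c q).Nonempty} := by
    refine ⟨∑ i, c i, ?_⟩
    rintro q ⟨w, ⟨M, h1, h2, rfl⟩, h3⟩
    have h4 := tdeg_dg M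
    have h5 : tdeg (dg M) ≤ ∑ i, c i := Finset.sum_le_sum fun i _ => h3 i
    omega
  have hne : {q | (matchVecs G c q).Nonempty}.Nonempty := ⟨1, hone⟩
  set δ := sSup {q | (matchVecs G c q).Nonempty} with hδ
  have hgr : IsGreatest {q | (matchVecs G c q).Nonempty} δ :=
    ⟨Nat.sSup_mem hne hbdd, fun x hx => le_csSup hbdd hx⟩
  refine ⟨δ, hgr, ?_⟩
  have hδ1 : 1 ≤ δ := hgr.2 hone
  have hmax : matchVecs G c (δ + 1) = ∅ := by
    by_contra hcon
    have := hgr.2 (Set.nonempty_iff_ne_empty.mpr hcon)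
    omega
  rw [minGens_eq]
  exact toric_eq K (matchVecs G c δ) (matching_SBO G c δ hmax) (r := 2 * δ) (by omega)
    (by rintro w ⟨⟨M, h1, _, rfl⟩, _⟩; rw [tdeg_dg, h1])

end Pool.Agent.Results.MP_69eae4_al.SymmetricExchange
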